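import Pool.Agent.W285.UB.All

/-!
# Almost all maps of the projective line over a number field have no preperiodic point of bounded
degree

Let `K` be a number field, `D ≥ 1`, `E = D [K : ℚ]` and `d ≥ 4 E (E + 1) + 2`. All but a proportion
`O(H^(-1/4))` of the pairs `(F, G)` of binary forms of degree `d` with coefficients in `𝓞 K` of size
at most `H` have no common zero and increase the height of every point of the projective line
defined over an extension of degree at most `D` of `K`; such a map has no preperiodic point over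
any extension of degree at most `D` of `K`.
-/

set_option autoImplicit false

namespace Pool.Agent.Results.MP_90787a_nt.AlmostAllMapsBoundedDegree

open NumberField Height Module

/-- The pairs `φ = (F, G)` of binary forms of degree `d` with coefficients in the ring of integers
of `K`; `φ 0 i` is the coefficient of `x^i y^(d-i)` in `F(x, y)`, `φ 1 i` the one in `G(x, y)`. -/
abbrev Pairs (K : Type) [Field K] (d : ℕ) : Type := Fin 2 → Fin (d + 1) → 𝓞 K

/-- The pairs all of whose coefficients have coordinates of absolute value at most `H` in the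
integral basis of `K`. -/
def box (K : Type) [Field K] [NumberField K] (d H : ℕ) : Set (Pairs K d) :=
  {φ | ∀ a i j, |(RingOfIntegers.basis K).repr (φ a i) j| ≤ (H : ℤ)}

/-- The map `v ↦ (F(v), G(v))` of `L × L`, for an extension `L` of `K`. -/
noncomputable def act {K L : Type} [Field K] [Field L] [Algebra K L] {d : ℕ} (φ : Pairs K d)
    (v : Fin 2 → L) : Fin 2 → L :=
  fun a => ∑ i, algebraMap K L (φ a i : K) * v 0 ^ (i : ℕ) * v 1 ^ (d - i)

/-- `F` and `G` have no common zero over the algebraic closure except `0`, i.e. `(F : G)` is a map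
of degree `d` of the projective line over `K`. -/
def IsMap {K : Type} [Field K] {d : ℕ} (φ : Pairs K d) : Prop :=
  ∀ v : Fin 2 → AlgebraicClosure K, act φ v = 0 → v = 0

/-- The map increases the (multiplicative, relative to `L`) Weil height of every point of the
projective line over every extension `L` of `K` of degree at most `D`. -/
def IncreasesHeights {K : Type} [Field K] [NumberField K] {d : ℕ} (D : ℕ) (φ : Pairs K d) : Prop :=
  ∀ (L : Type) [Field L] [NumberField L] [Algebra K L], finrank K L ≤ D →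
    ∀ v : Fin 2 → L, v ≠ 0 → mulHeight v < mulHeight (act φ v)

/-- Some point `(v 0 : v 1)` of the projective line over an extension `L` of `K` of degree at most
`D` is preperiodic: its images under the `m`-th and the `n`-th iterate agree for some `m < n`. -/
def HasPreperiodicPoint {K : Type} [Field K] [NumberField K] {d : ℕ} (D : ℕ) (φ : Pairs K d) :
    Prop :=
  ∃ (L : Type) (_ : Field L) (_ : NumberField L) (_ : Algebra K L), finrank K L ≤ D ∧
    ∃ v : Fin 2 → L, v ≠ 0 ∧ ∃ m n : ℕ, m < n ∧ ∃ c : L, c ≠ 0 ∧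
      (act φ)^[n] v = c • (act φ)^[m] v

/-- **Almost all maps of large degree over a number field have no preperiodic point of bounded
degree.** Let `K` be a number field of degree `n`, `D ≥ 1`, `E = D n` and `d ≥ 4 E (E + 1) + 2`. Of
the `(2 H + 1)^(n (2 d + 2))` pairs of forms of degree `d` and size at most `H` over `𝓞 K` all but
`O(H^(n (2 d + 2) - 1/4))` are maps of degree `d` which increase the height of every point of degree
at most `D` over `K`; they have no preperiodic point of degree at most `D` over `K`. In particular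
the proportion of the maps with a preperiodic point of degree at most `D` over `K` tends to `0`. -/
theorem result (K : Type) [Field K] [NumberField K] (D d : ℕ) (hD : 1 ≤ D)
    (hd : 4 * (D * finrank ℚ K * (D * finrank ℚ K + 1)) + 2 ≤ d) :
    (∀ H : ℕ, (box K d H).ncard = (2 * H + 1) ^ (finrank ℚ K * (2 * d + 2))) ∧
    (∃ C : ℝ, ∀ H : ℕ, 1 ≤ H →
      (({φ | φ ∈ box K d H ∧ ¬ (IsMap φ ∧ IncreasesHeights D φ)} : Set (Pairs K d)).ncard : ℝ) ≤
        C * (H : ℝ) ^ ((finrank ℚ K : ℝ) * (2 * d + 2) - 1 / 4)) ∧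
    (∀ φ : Pairs K d, IncreasesHeights D φ → ¬ HasPreperiodicPoint D φ) ∧
    Filter.Tendsto (fun H : ℕ =>
      (({φ | φ ∈ box K d H ∧ IsMap φ ∧ HasPreperiodicPoint D φ} : Set (Pairs K d)).ncard : ℝ) /
        (({φ | φ ∈ box K d H ∧ IsMap φ} : Set (Pairs K d)).ncard : ℝ))
      Filter.atTop (nhds 0) := by
  classical
  have hball := @Pool.Agent.W285.UB.p_ball
  have hbox : ∀ H, box K d H = {φ | ∀ a i, φ a i ∈ Pool.Agent.W285.UB.ball K H} := fun H => rfl
  have hfin : ∀ H, (box K d H).Finite := fun H => by
    rw [hbox]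
    exact Pool.Agent.W285.UB.box_finite hball d H
  have h1 : ∀ H : ℕ, (box K d H).ncard = (2 * H + 1) ^ (finrank ℚ K * (2 * d + 2)) := fun H => by
    rw [hbox]
    exact Pool.Agent.W285.UB.box_ncard hball d H
  have h3 : ∀ φ : Pairs K d, IncreasesHeights D φ → ¬ HasPreperiodicPoint D φ := by
    rintro φ hφ ⟨L, i1, i2, i3, hL, hP⟩
    exact Pool.Agent.W285.UB.p_per K d φ L (fun v hv => hφ L hL v hv) hP
  obtain ⟨C, hC⟩ := Pool.Agent.W285.UB.fin1 hball Pool.Agent.W285.UB.p_cnt
    Pool.Agent.W285.UB.p_deg Pool.Agent.W285.UB.p_emb K D d hD hd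
  have hC' : ∀ H : ℕ, 1 ≤ H →
      (({φ | φ ∈ box K d H ∧ ¬ (IsMap φ ∧ IncreasesHeights D φ)} : Set (Pairs K d)).ncard : ℝ) ≤
        C * (H : ℝ) ^ ((finrank ℚ K : ℝ) * (2 * d + 2) - 1 / 4) := fun H hH => hC H hH
  refine ⟨h1, ⟨C, hC'⟩, h3, ?_⟩
  refine Pool.Agent.W285.UB.ratio_tendsto (N := finrank ℚ K * (2 * d + 2)) (C := C) (ε := 1 / 4)
    (b := fun H => (({φ | φ ∈ box K d H ∧ ¬ (IsMap φ ∧ IncreasesHeights D φ)} :
      Set (Pairs K d)).ncard : ℝ)) (by norm_num) (fun H => Nat.cast_nonneg _) (fun H => ?_)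
    (fun H hH => ?_) (fun H => ?_)
  · refine Nat.cast_le.2 (Set.ncard_le_ncard ?_ ((hfin H).subset fun φ h => h.1))
    rintro φ ⟨g1, g2, g3⟩
    exact ⟨g1, fun h => h3 φ h.2 g3⟩
  · refine (hC' H hH).trans (le_of_eq ?_)
    push_cast
    rfl
  · have e1 : (2 * (H : ℝ) + 1) ^ (finrank ℚ K * (2 * d + 2)) = ((box K d H).ncard : ℝ) := by
      rw [h1]
      push_cast
      rfl
    rw [e1, sub_le_iff_le_add, ← Nat.cast_add]
    refine Nat.cast_le.2 (le_trans (Set.ncard_le_ncard ?_ ?_) (Set.ncard_union_le _ _))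
    · intro φ hφ
      by_cases h : IsMap φ
      · exact Or.inl ⟨hφ, h⟩
      · exact Or.inr ⟨hφ, fun h' => h h'.1⟩
    · exact ((hfin H).subset fun φ h => h.1).union ((hfin H).subset fun φ h => h.1)

end Pool.Agent.Results.MP_90787a_nt.AlmostAllMapsBoundedDegree
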